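import Pool.Agent.Helper95.LN.Stmts

/-!
# Row KK of LN: the smeared Coulomb kernel
-/

set_option autoImplicit false

namespace Pool.Agent.Helper2.LN

open MeasureTheory Filter Pool.Agent.Helper95.PW Pool.Agent.Helper95.LN

theorem kk_nr (y : R3) : nr y = ‖(WithLp.toLp 2 y : EuclideanSpace ℝ (Fin 3))‖ := by
  rw [EuclideanSpace.norm_eq, nr]
  simp [Fin.sum_univ_three]

theorem kk_tri (a b : R3) : nr (a - b) ≤ nr a + nr b := by
  rw [kk_nr, kk_nr, kk_nr, WithLp.toLp_sub]
  exact norm_sub_le _ _

theorem kk_neg (a : R3) : nr (-a) = nr a := by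
  unfold nr
  congr 1
  simp only [Pi.neg_apply]
  ring

theorem kk_pd (i : Fin 3) (g : R3 → ℝ) (z : R3) :
    pd i (fun w => g (w - z)) = fun w => pd i g (w - z) := by
  funext w
  unfold pd
  rw [fderiv_comp_sub]

theorem kk_lap (g : R3 → ℝ) (z w : R3) : lap (fun w => g (w - z)) w = lap g (w - z) := by
  unfold lap
  apply Finset.sum_congr rfl
  intro i _
  rw [kk_pd i g z, kk_pd i (pd i g) z]

theorem KK (hM : ST_MVP) (hA : ST_PHA) (hB : ST_PHB) (hC : ST_PHC) : ST_KK := by
  intro a z ha
  obtain ⟨hA1, hA2, hA3, hA4, -⟩ := hA a ha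
  obtain ⟨hB1, -⟩ := hB a ha
  obtain ⟨-, hk, -, hC'⟩ := hC
  obtain ⟨-, hC2, hC3, -, -, hC6⟩ := hC' a ha
  have hsm : ContDiff ℝ (⊤ : ℕ∞) (fun w : R3 => ph a (w - z)) :=
    hA1.comp (contDiff_id.sub contDiff_const)
  obtain ⟨m1, m2⟩ := hM (fun w => ph a (w - z)) 0 a hsm ha
  have h0 : ph a (0 - z) = ph a (-z) := by rw [zero_sub]
  have hI : ∫ w, (fun w => ph a (w - z)) w * et a (w - 0) = ∫ w, ph a (w - z) * et a w := by
    apply integral_congr_ae
    refine Filter.Eventually.of_forall fun w => ?_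
    change ph a (w - z) * et a (w - 0) = ph a (w - z) * et a w
    rw [sub_zero]
  rw [hI] at m1 m2
  refine ⟨?_, ?_, ?_, ?_⟩
  · intro hz
    have hlap : ∀ w, nr (w - 0) ≤ a → lap (fun w => ph a (w - z)) w = 0 := by
      intro w hw
      rw [kk_lap, hB1, hC3, neg_zero]
      have h1 : nr z ≤ nr (w - z) + nr w := by
        have := kk_tri w (w - z)
        have e : w - (w - z) = z := by abel
        rw [e] at this
        linarith
      rw [sub_zero] at hw
      linarith
    have h2 := m1 hlap
    unfold Kf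
    rw [h2, h0, hA2 (-z) (by rw [kk_neg]; linarith), kk_neg]
    have : kap ≠ 0 := ne_of_gt hk
    rw [← mul_assoc, one_div_mul_cancel this, one_mul]
  · intro hz
    have hlap : ∀ w, nr (w - 0) ≤ a → lap (fun w => ph a (w - z)) w ≤ 0 := by
      intro w _
      rw [kk_lap, hB1]
      have := hC2 (w - z)
      linarith
    have h2 := m2 hlap
    have h3 : ph a (0 - z) ≤ 1 / nr z := by
      rw [h0]
      have := hA3 (-z) (by rw [kk_neg]; exact hz)
      rw [kk_neg] at this
      exact this
    unfold Kf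
    have h4 : ∫ w, ph a (w - z) * et a w ≤ kap * (1 / nr z) :=
      h2.trans (mul_le_mul_of_nonneg_left h3 hk.le)
    rw [one_div_mul_eq_div, div_le_iff₀ hk]
    linarith
  · unfold Kf
    apply mul_nonneg (by positivity)
    apply integral_nonneg
    intro w
    exact mul_nonneg (hA4 _).1 (hC2 w)
  · unfold Kf
    have hint : Integrable (et a) := by
      by_contra hcon
      rw [integral_undef hcon] at hC6
      exact (ne_of_gt hk) hC6.symm
    have h4 : ∫ w, ph a (w - z) * et a w ≤ ∫ w, 2 / a * et a w := by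
      apply integral_mono_of_nonneg
      · exact Filter.Eventually.of_forall fun w => mul_nonneg (hA4 _).1 (hC2 w)
      · exact hint.const_mul _
      · exact Filter.Eventually.of_forall fun w =>
          mul_le_mul_of_nonneg_right (hA4 _).2 (hC2 w)
    rw [integral_const_mul, hC6] at h4
    rw [one_div_mul_eq_div, div_le_iff₀ hk]
    exact h4

end Pool.Agent.Helper2.LN
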